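import Pool.Agent.helper73.AD.Basic

/-! Module CL of project ad (MP_a29257_gt): the bad set is closed. -/

namespace Pool.Agent.helper73.AD

open scoped BigOperators Topology
open Filter

theorem CL_contX {J K : Type} [Fintype J] [DecidableEq J] [Fintype K] [DecidableEq K]
    (S : Sys J K) (Φ : SFam S) (k : K) : Continuous fun T => S.X k (Φ.Z T) := by
  have hZc : Continuous Φ.Z := continuous_iff_continuousAt.mpr fun T => (Φ.dZ T).continuousAt
  have h1 : ContinuousOn (fderiv ℝ (S.H k)) (Cone J) :=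
    (S.smooth k).continuousOn_fderiv_of_isOpen isOpen_Cone (by norm_num)
  have h2 : Continuous fun T => fderiv ℝ (S.H k) (Φ.Z T) := h1.comp_continuous hZc Φ.mem
  exact sgL.continuous.comp h2

theorem CL_cont {J K : Type} [Fintype J] [DecidableEq J] [Fintype K] [DecidableEq K]
    (S : Sys J K) (Φ : SFam S) (y : PS J) :
    Continuous fun q : (K → ℝ) × (K → ℝ) => om (S.Xv q.1 (Φ.Z q.2)) y := by
  have h : (fun q : (K → ℝ) × (K → ℝ) => om (S.Xv q.1 (Φ.Z q.2)) y)
      = fun q : (K → ℝ) × (K → ℝ) => ∑ k, q.1 k * (-(omL y (S.X k (Φ.Z q.2)))) := by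
    funext q
    unfold Sys.Xv
    rw [om_sum_left]
    refine Finset.sum_congr rfl fun k _ => ?_
    rw [om_smul_left, omL_apply, ← om_anti]
  rw [h]
  refine continuous_finsetSum _ fun k _ => ?_
  refine Continuous.mul ((continuous_apply k).comp continuous_fst) ?_
  exact ((omL y).continuous.comp ((CL_contX S Φ k).comp continuous_snd)).neg

theorem CL_of (hND : ND_stmt) : CL_stmt := by
  intro J K _ _ _ _ S Φ
  obtain ⟨R, R', hR, hRR', hnd⟩ := hND J K S Φ
  apply IsSeqClosed.isClosed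
  intro T T0 hT hT0
  choose s w hw0 hw using hT
  obtain ⟨B, hB⟩ := (Metric.isBounded_range_of_tendsto T hT0).exists_norm_le
  have hTB : ∀ n, ‖T n‖ ≤ B := fun n => hB _ ⟨n, rfl⟩
  -- the parameters are bounded
  have hs : ∀ n, |s n| ≤ R + B := by
    intro n
    have hno : ¬ (∀ k, R ≤ |(T n + s n • (fun _ : K => (1 : ℝ))) k|) := by
      intro hall
      have h1 := hnd (T n + s n • (fun _ : K => (1 : ℝ))) (Or.inl hall) (w n) (hw0 n)
      rw [om_ev_right] at h1
      have h2 : ∑ k, w n k * om (S.Xv (w n) (Φ.Z (T n + s n • (fun _ : K => (1 : ℝ))))) (S.e k)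
          = 0 := Finset.sum_eq_zero fun k _ => by rw [hw n k, mul_zero]
      linarith
    push Not at hno
    obtain ⟨k, hk⟩ := hno
    have h1 : (T n + s n • (fun _ : K => (1 : ℝ))) k = T n k + s n := by simp
    rw [h1] at hk
    have h2 : |T n k| ≤ B := (norm_le_pi_norm (T n) k).trans (hTB n)
    have h3 : |s n| ≤ |T n k + s n| + |T n k| := by
      have := abs_sub (T n k + s n) (T n k)
      simpa using this
    linarith
  -- normalised vectors
  have hn0 : ∀ n, ‖w n‖ ≠ 0 := fun n => norm_ne_zero_iff.mpr (hw0 n)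
  set u : ℕ → (K → ℝ) := fun n => (‖w n‖)⁻¹ • w n with hu
  have hu1 : ∀ n, ‖u n‖ = 1 := by
    intro n
    simp only [hu]
    rw [norm_smul, norm_inv, norm_norm, inv_mul_cancel₀ (hn0 n)]
  have hu2 : ∀ n k, om (S.Xv (u n) (Φ.Z (T n + s n • (fun _ : K => (1 : ℝ))))) (S.e k) = 0 := by
    intro n k
    have h1 : S.Xv (u n) (Φ.Z (T n + s n • (fun _ : K => (1 : ℝ))))
        = (‖w n‖)⁻¹ • S.Xv (w n) (Φ.Z (T n + s n • (fun _ : K => (1 : ℝ)))) := by
      unfold Sys.Xv
      rw [Finset.smul_sum]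
      refine Finset.sum_congr rfl fun k _ => ?_
      simp only [hu, Pi.smul_apply, smul_eq_mul, smul_smul]
    rw [h1, om_smul_left, hw n k, mul_zero]
  -- compactness
  have hcomp : IsCompact ((Set.Icc (-(R + B)) (R + B)) ×ˢ (Metric.sphere (0 : K → ℝ) 1)) :=
    isCompact_Icc.prod (isCompact_sphere _ _)
  have hmem : ∀ n, (s n, u n) ∈ (Set.Icc (-(R + B)) (R + B)) ×ˢ (Metric.sphere (0 : K → ℝ) 1) := by
    intro n
    refine ⟨abs_le.mp (hs n), ?_⟩
    rw [mem_sphere_zero_iff_norm]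
    exact hu1 n
  obtain ⟨⟨s0, u0⟩, hmem0, φ, hφ, hlim⟩ := hcomp.tendsto_subseq hmem
  have hs0 : Tendsto (fun n => s (φ n)) atTop (𝓝 s0) :=
    (continuous_fst.tendsto _).comp hlim
  have hu0 : Tendsto (fun n => u (φ n)) atTop (𝓝 u0) :=
    (continuous_snd.tendsto _).comp hlim
  have hTφ : Tendsto (fun n => T (φ n)) atTop (𝓝 T0) := hT0.comp hφ.tendsto_atTop
  refine ⟨s0, u0, ?_, ?_⟩
  · intro h0
    have h1 := hmem0.2
    rw [h0, mem_sphere_zero_iff_norm, norm_zero] at h1
    exact zero_ne_one h1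
  · intro k
    have h1 : Tendsto (fun n => T (φ n) + s (φ n) • (fun _ : K => (1 : ℝ))) atTop
        (𝓝 (T0 + s0 • (fun _ : K => (1 : ℝ)))) := hTφ.add (hs0.smul_const _)
    have h2 : Tendsto (fun n => ((u (φ n), T (φ n) + s (φ n) • (fun _ : K => (1 : ℝ))) :
        (K → ℝ) × (K → ℝ))) atTop (𝓝 (u0, T0 + s0 • (fun _ : K => (1 : ℝ)))) :=
      hu0.prodMk_nhds h1
    have h3 := ((CL_cont S Φ (S.e k)).tendsto _).comp h2
    have h4 : Tendsto (fun n => om (S.Xv (u (φ n))
        (Φ.Z (T (φ n) + s (φ n) • (fun _ : K => (1 : ℝ))))) (S.e k)) atTop (𝓝 0) := by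
      have : (fun n => om (S.Xv (u (φ n))
        (Φ.Z (T (φ n) + s (φ n) • (fun _ : K => (1 : ℝ))))) (S.e k)) = fun _ => 0 := by
        funext n
        exact hu2 (φ n) k
      rw [this]
      exact tendsto_const_nhds
    exact tendsto_nhds_unique h3 h4

end Pool.Agent.helper73.AD
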