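import Pool.Agent.helper14.AD.IS

/-! Module DR of project ad (MP_a29257_gt): derivative of the fields along a line. -/

namespace Pool.Agent.helper73.AD

open scoped BigOperators Topology
open Filter

variable {J K : Type} [Fintype J] [DecidableEq J] [Fintype K] [DecidableEq K]

/-- derivative of the k-th field -/
noncomputable def DR_D (S : Sys J K) (k : K) (z : PS J) : PS J →L[ℝ] PS J :=
  sgL.comp (fderiv ℝ (fun u => fderiv ℝ (S.H k) u) z)

theorem DR_D_apply (S : Sys J K) (k : K) (z x y : PS J) :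
    om (DR_D S k z x) y = hs (S.H k) z x y := by
  unfold DR_D hs
  rw [ContinuousLinearMap.comp_apply, sgL_apply, om_sg]

theorem DR_hasX (S : Sys J K) (k : K) {z : PS J} (hz : z ∈ Cone J) :
    HasFDerivAt (S.X k) (DR_D S k z) z := by
  have h1 : ContDiffAt ℝ 1 (fderiv ℝ (S.H k)) z :=
    (contDiffAt_H S k hz).fderiv_right (by norm_num)
  have h2 : HasFDerivAt (fun u => fderiv ℝ (S.H k) u)
      (fderiv ℝ (fun u => fderiv ℝ (S.H k) u) z) z :=
    (h1.differentiableAt (by norm_num)).hasFDerivAt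
  exact (sgL.hasFDerivAt (x := fderiv ℝ (S.H k) z)).comp z h2

/-- second derivative of the family -/
noncomputable def DR_Z2 (S : Sys J K) (z : PS J) : (K → ℝ) →L[ℝ] (K → ℝ) →L[ℝ] PS J :=
  ∑ k, (ContinuousLinearMap.smulRightL ℝ (K → ℝ) (PS J)
    (ContinuousLinearMap.proj k : (K → ℝ) →L[ℝ] ℝ)).comp ((DR_D S k z).comp
    (∑ m, (ContinuousLinearMap.proj m : (K → ℝ) →L[ℝ] ℝ).smulRight (S.X m z)))

theorem DR_Z2_apply (S : Sys J K) (z : PS J) (v w : K → ℝ) :
    DR_Z2 S z v w = ∑ k, w k • DR_D S k z (S.Xv v z) := by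
  unfold DR_Z2
  rw [sum_apply, sum_apply]
  refine Finset.sum_congr rfl fun k _ => ?_
  rw [ContinuousLinearMap.comp_apply, ContinuousLinearMap.comp_apply, IS_dZ_apply]
  simp

theorem DR_hasZ' (S : Sys J K) (Φ : SFam S) (T : K → ℝ) :
    HasFDerivAt (fun T => ∑ k, (ContinuousLinearMap.proj k : (K → ℝ) →L[ℝ] ℝ).smulRight
      (S.X k (Φ.Z T))) (DR_Z2 S (Φ.Z T)) T := by
  unfold DR_Z2
  refine HasFDerivAt.fun_sum fun k _ => ?_
  have h1 := (DR_hasX S k (Φ.mem T)).comp T (Φ.dZ T)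
  exact ((ContinuousLinearMap.smulRightL ℝ (K → ℝ) (PS J)
    (ContinuousLinearMap.proj k : (K → ℝ) →L[ℝ] ℝ)).hasFDerivAt
    (x := S.X k (Φ.Z T))).comp T h1

theorem DR_symm (S : Sys J K) (Φ : SFam S) (T v w : K → ℝ) :
    DR_Z2 S (Φ.Z T) v w = DR_Z2 S (Φ.Z T) w v :=
  second_derivative_symmetric (fun T => Φ.dZ T) (DR_hasZ' S Φ T) v w

theorem DR_rot (S : Sys J K) (κ : K → ℝ) (z x : PS J) :
    ∑ k, κ k • DR_D S k z x = S.rot κ z x := by
  refine eq_of_om _ _ fun y => ?_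
  rw [om_rot, om_sum_left]
  unfold Sys.hv
  refine Finset.sum_congr rfl fun k _ => ?_
  rw [om_smul_left, DR_D_apply]

/-- derivative of the combination of fields on the family -/
theorem DR_hasXv (S : Sys J K) (Φ : SFam S) (v T : K → ℝ) :
    HasFDerivAt (fun T => S.Xv v (Φ.Z T))
      ((ContinuousLinearMap.apply ℝ (PS J) v).comp (DR_Z2 S (Φ.Z T))) T := by
  have h1 := ((ContinuousLinearMap.apply ℝ (PS J) v).hasFDerivAt
    (x := ∑ k, (ContinuousLinearMap.proj k : (K → ℝ) →L[ℝ] ℝ).smulRight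
      (S.X k (Φ.Z T)))).comp T (DR_hasZ' S Φ T)
  have h2 : (fun T => S.Xv v (Φ.Z T)) = (ContinuousLinearMap.apply ℝ (PS J) v) ∘
      (fun T => ∑ k, (ContinuousLinearMap.proj k : (K → ℝ) →L[ℝ] ℝ).smulRight
      (S.X k (Φ.Z T))) := by
    funext T
    rw [Function.comp_apply, ContinuousLinearMap.apply_apply, IS_dZ_apply]
  rw [h2]
  exact h1

theorem DR : DR_stmt := by
  intro J K _ _ _ _ S Φ v κ T s
  have hline : HasDerivAt (fun s : ℝ => T + s • κ) κ s := by
    have h1 : HasDerivAt (fun s : ℝ => s • κ) κ s := by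
      simpa using (hasDerivAt_id s).smul_const κ
    exact h1.const_add T
  have h2 := (DR_hasXv S Φ v (T + s • κ)).comp_hasDerivAt s hline
  have h3 : ((ContinuousLinearMap.apply ℝ (PS J) v).comp (DR_Z2 S (Φ.Z (T + s • κ)))) κ
      = S.rot κ (Φ.Z (T + s • κ)) (S.Xv v (Φ.Z (T + s • κ))) := by
    rw [ContinuousLinearMap.comp_apply, ContinuousLinearMap.apply_apply, DR_symm, DR_Z2_apply,
      DR_rot]
  rw [h3] at h2
  exact h2

end Pool.Agent.helper73.AD
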