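import Pool.Agent.helper73.AD.Basic

/-! Module IS of project ad (MP_a29257_gt): isotropy of the Hamiltonian fields on a family. -/

namespace Pool.Agent.helper73.AD

open scoped BigOperators Topology
open Filter

theorem IS_dZ_apply {J K : Type} [Fintype J] [DecidableEq J] [Fintype K] [DecidableEq K]
    (S : Sys J K) (z : PS J) (v : K → ℝ) :
    (∑ k, (ContinuousLinearMap.proj k : (K → ℝ) →L[ℝ] ℝ).smulRight (S.X k z)) v = S.Xv v z := by
  unfold Sys.Xv
  rw [sum_apply]
  refine Finset.sum_congr rfl fun k _ => ?_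
  simp

theorem IS_Xv_single {J K : Type} [Fintype J] [DecidableEq J] [Fintype K] [DecidableEq K]
    (S : Sys J K) (z : PS J) (m : K) : S.Xv (Pi.single m 1) z = S.X m z := by
  unfold Sys.Xv
  rw [Finset.sum_eq_single m]
  · simp
  · intro b _ hb
    rw [Pi.single_eq_of_ne hb, zero_smul]
  · intro h
    exact absurd (Finset.mem_univ m) h

theorem IS : IS_stmt := by
  intro J K _ _ _ _ S Φ T k m
  have hd : HasFDerivAt (S.H k) (fderiv ℝ (S.H k) (Φ.Z T)) (Φ.Z T) :=
    ((contDiffAt_H S k (Φ.mem T)).differentiableAt (by norm_num)).hasFDerivAt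
  have hc := hd.comp T (Φ.dZ T)
  have hconst : (S.H k ∘ Φ.Z) = fun _ => Φ.lev k := funext fun T => Φ.level T k
  rw [hconst] at hc
  have h0 := hc.unique (hasFDerivAt_const (Φ.lev k) T)
  have h1 := congrArg (fun L => L (Pi.single m 1)) h0
  simp only [ContinuousLinearMap.comp_apply, zero_apply] at h1
  rw [IS_dZ_apply, IS_Xv_single] at h1
  rw [om_X]
  exact h1

end Pool.Agent.helper73.AD
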