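import Pool.Agent.helper14.AD.IS

/-! Module ND of project ad (MP_a29257_gt): negativity when at most one parameter is small. -/

namespace Pool.Agent.helper73.AD

open scoped BigOperators Topology
open Filter

variable {J K : Type} [Fintype J] [DecidableEq J] [Fintype K] [DecidableEq K]

omit [DecidableEq J] in
theorem ND_alg (Xp Xm X0 ep em e0 : PS J) (h1 : om Xp Xm = 0) (h2 : om X0 Xp = 0)
    (h3 : om X0 Xm = 0) (h4 : om ep em = 0) (h5 : om ep e0 = 0) (h6 : om em e0 = 0) :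
    om (Xp + Xm + X0) (ep + em + e0) = om Xp ep + om Xm em + om X0 e0 + om (Xp - ep) (Xm + em)
      + (om (Xp - ep) e0 - om X0 (Xp - ep)) + (om (Xm + em) e0 + om X0 (Xm + em)) := by
  simp only [om_add_left, om_add_right, om_sub_left, om_sub_right]
  have h7 := om_anti ep Xm
  linarith

theorem ND_Xv_add (S : Sys J K) (v w : K → ℝ) (z : PS J) :
    S.Xv (v + w) z = S.Xv v z + S.Xv w z := by
  unfold Sys.Xv
  rw [← Finset.sum_add_distrib]
  exact Finset.sum_congr rfl fun k _ => by rw [Pi.add_apply, add_smul]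

theorem ND_ev_add (S : Sys J K) (v w : K → ℝ) : S.ev (v + w) = S.ev v + S.ev w := by
  unfold Sys.ev
  rw [← Finset.sum_add_distrib]
  exact Finset.sum_congr rfl fun k _ => by rw [Pi.add_apply, add_smul]

theorem ND_Xv_iso (S : Sys J K) (Φ : SFam S) (T v w : K → ℝ) :
    om (S.Xv v (Φ.Z T)) (S.Xv w (Φ.Z T)) = 0 := by
  unfold Sys.Xv
  rw [om_sum_left]
  refine Finset.sum_eq_zero fun k _ => ?_
  rw [om_smul_left, om_sum_right, Finset.sum_eq_zero, mul_zero]
  intro m _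
  rw [om_smul_right, IS J K S Φ T k m, mul_zero]

theorem ND_ev_iso (S : Sys J K) (he : ∀ k m, om (S.e k) (S.e m) = 0) (v w : K → ℝ) :
    om (S.ev v) (S.ev w) = 0 := by
  unfold Sys.ev
  rw [om_sum_left]
  refine Finset.sum_eq_zero fun k _ => ?_
  rw [om_smul_left, om_sum_right, Finset.sum_eq_zero, mul_zero]
  intro m _
  rw [om_smul_right, he, mul_zero]

omit [DecidableEq J] in
theorem ND_om_le (x y : PS J) (a b : ℝ) (hx : ‖x‖ ≤ a) (hy : ‖y‖ ≤ b) :
    |om x y| ≤ 2 * Fintype.card J * a * b := by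
  refine (abs_om_le x y).trans ?_
  have h1 := norm_nonneg x
  have h2 := norm_nonneg y
  have h3 : 0 ≤ a := h1.trans hx
  gcongr

/-- the main estimate -/
theorem ND_core (S : Sys J K) (Φ : SFam S) (he : ∀ k m, om (S.e k) (S.e m) = 0)
    (C0 : ℝ) (hC0 : 0 ≤ C0)
    (hKY : ∀ (ε : ℝ) (_hε : ε = 1 ∨ ε = -1)
      (s : Finset K) (R : ℝ) (T v : K → ℝ), 0 ≤ R → (∀ k ∈ s, R ≤ ε * T k) →
      (∀ k, k ∉ s → v k = 0) →
      ∃ I : ℝ, 0 ≤ I ∧ (v ≠ 0 → 0 < I) ∧
        ‖S.Xv v (Φ.Z T) - ε • S.ev v‖ ≤ C0 * Real.exp (-R / 2) * Real.sqrt I ∧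
        om (S.Xv v (Φ.Z T)) (S.ev v) ≤ -(1 - C0 * Real.exp (-R)) * I)
    (R1 : ℝ) (hR1 : 0 ≤ R1) (T vp vm v0 : K → ℝ)
    (hp : ∀ k, vp k ≠ 0 → R1 ≤ T k) (hm : ∀ k, vm k ≠ 0 → R1 ≤ -T k)
    (M : ℝ) (hM : ‖S.Xv v0 (Φ.Z T)‖ + ‖S.ev v0‖ ≤ M) :
    ∃ a b : ℝ, 0 ≤ a ∧ 0 ≤ b ∧ (vp ≠ 0 → 0 < a) ∧ (vm ≠ 0 → 0 < b) ∧
      om (S.Xv (vp + vm + v0) (Φ.Z T)) (S.ev (vp + vm + v0)) ≤
        -(1 - C0 * Real.exp (-R1)) * (a ^ 2 + b ^ 2)
        + 2 * Fintype.card J * C0 ^ 2 * Real.exp (-R1) * (a * b)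
        + 2 * Fintype.card J * C0 * Real.exp (-R1 / 2) * M * (a + b)
        + om (S.Xv v0 (Φ.Z T)) (S.ev v0) := by
  obtain ⟨I, hI0, hI1, hI2, hI3⟩ := hKY 1 (Or.inl rfl)
    (Finset.univ.filter fun k => vp k ≠ 0) R1 T vp hR1
    (fun k hk => by
      rw [one_mul]
      exact hp k (Finset.mem_filter.mp hk).2)
    (fun k hk => by
      by_contra h
      exact hk (Finset.mem_filter.mpr ⟨Finset.mem_univ k, h⟩))
  obtain ⟨I', hI0', hI1', hI2', hI3'⟩ := hKY (-1) (Or.inr rfl)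
    (Finset.univ.filter fun k => vm k ≠ 0) R1 T vm hR1
    (fun k hk => by
      rw [neg_one_mul]
      exact hm k (Finset.mem_filter.mp hk).2)
    (fun k hk => by
      by_contra h
      exact hk (Finset.mem_filter.mpr ⟨Finset.mem_univ k, h⟩))
  refine ⟨Real.sqrt I, Real.sqrt I', Real.sqrt_nonneg _, Real.sqrt_nonneg _,
    fun h => Real.sqrt_pos.mpr (hI1 h), fun h => Real.sqrt_pos.mpr (hI1' h), ?_⟩
  rw [one_smul] at hI2
  rw [neg_one_smul, sub_neg_eq_add] at hI2'
  rw [ND_Xv_add, ND_Xv_add, ND_ev_add, ND_ev_add]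
  rw [ND_alg _ _ _ _ _ _ (ND_Xv_iso S Φ T vp vm) (ND_Xv_iso S Φ T v0 vp) (ND_Xv_iso S Φ T v0 vm)
    (ND_ev_iso S he vp vm) (ND_ev_iso S he vp v0) (ND_ev_iso S he vm v0)]
  have e1 := Real.sq_sqrt hI0
  have e2 := Real.sq_sqrt hI0'
  rw [e1, e2]
  have hX0 : ‖S.Xv v0 (Φ.Z T)‖ ≤ M := by
    have := norm_nonneg (S.ev v0)
    linarith
  have he0 := norm_nonneg (S.ev v0)
  have hx0 := norm_nonneg (S.Xv v0 (Φ.Z T))
  have hM0 : 0 ≤ M := by linarith
  have b1 := ND_om_le _ _ _ _ hI2 hI2'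
  have b2 := ND_om_le _ _ _ _ hI2 (le_refl ‖S.ev v0‖)
  have b3 := ND_om_le _ _ _ _ (le_refl ‖S.Xv v0 (Φ.Z T)‖) hI2
  have b4 := ND_om_le _ _ _ _ hI2' (le_refl ‖S.ev v0‖)
  have b5 := ND_om_le _ _ _ _ (le_refl ‖S.Xv v0 (Φ.Z T)‖) hI2'
  have d1 : Real.exp (-R1) = Real.exp (-R1 / 2) ^ 2 := by
    rw [← Real.exp_nat_mul]
    congr 1
    push_cast
    ring
  have c1 := (abs_le.mp b1).2
  have c2 := (abs_le.mp b2).2
  have c3 := (abs_le.mp b3).1
  have c4 := (abs_le.mp b4).2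
  have c5 := (abs_le.mp b5).2
  have f1 : 2 * (Fintype.card J : ℝ) * (C0 * Real.exp (-R1 / 2) * Real.sqrt I) * ‖S.ev v0‖
      + 2 * Fintype.card J * ‖S.Xv v0 (Φ.Z T)‖ * (C0 * Real.exp (-R1 / 2) * Real.sqrt I)
      ≤ 2 * Fintype.card J * C0 * Real.exp (-R1 / 2) * M * Real.sqrt I := by
    have : 2 * (Fintype.card J : ℝ) * (C0 * Real.exp (-R1 / 2) * Real.sqrt I) * ‖S.ev v0‖
      + 2 * Fintype.card J * ‖S.Xv v0 (Φ.Z T)‖ * (C0 * Real.exp (-R1 / 2) * Real.sqrt I)
      = (2 * Fintype.card J * (C0 * Real.exp (-R1 / 2) * Real.sqrt I))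
        * (‖S.Xv v0 (Φ.Z T)‖ + ‖S.ev v0‖) := by ring
    rw [this]
    calc (2 * (Fintype.card J : ℝ) * (C0 * Real.exp (-R1 / 2) * Real.sqrt I))
        * (‖S.Xv v0 (Φ.Z T)‖ + ‖S.ev v0‖)
        ≤ (2 * Fintype.card J * (C0 * Real.exp (-R1 / 2) * Real.sqrt I)) * M := by
          apply mul_le_mul_of_nonneg_left hM
          positivity
      _ = _ := by ring
  have f2 : 2 * (Fintype.card J : ℝ) * (C0 * Real.exp (-R1 / 2) * Real.sqrt I') * ‖S.ev v0‖
      + 2 * Fintype.card J * ‖S.Xv v0 (Φ.Z T)‖ * (C0 * Real.exp (-R1 / 2) * Real.sqrt I')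
      ≤ 2 * Fintype.card J * C0 * Real.exp (-R1 / 2) * M * Real.sqrt I' := by
    have : 2 * (Fintype.card J : ℝ) * (C0 * Real.exp (-R1 / 2) * Real.sqrt I') * ‖S.ev v0‖
      + 2 * Fintype.card J * ‖S.Xv v0 (Φ.Z T)‖ * (C0 * Real.exp (-R1 / 2) * Real.sqrt I')
      = (2 * Fintype.card J * (C0 * Real.exp (-R1 / 2) * Real.sqrt I'))
        * (‖S.Xv v0 (Φ.Z T)‖ + ‖S.ev v0‖) := by ring
    rw [this]
    calc (2 * (Fintype.card J : ℝ) * (C0 * Real.exp (-R1 / 2) * Real.sqrt I'))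
        * (‖S.Xv v0 (Φ.Z T)‖ + ‖S.ev v0‖)
        ≤ (2 * Fintype.card J * (C0 * Real.exp (-R1 / 2) * Real.sqrt I')) * M := by
          apply mul_le_mul_of_nonneg_left hM
          positivity
      _ = _ := by ring
  have f3 : 2 * (Fintype.card J : ℝ) * (C0 * Real.exp (-R1 / 2) * Real.sqrt I)
      * (C0 * Real.exp (-R1 / 2) * Real.sqrt I')
      = 2 * Fintype.card J * C0 ^ 2 * Real.exp (-R1) * (Real.sqrt I * Real.sqrt I') := by
    rw [d1]; ring
  have f4 : -(1 - C0 * Real.exp (-R1)) * (I + I')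
      = -(1 - C0 * Real.exp (-R1)) * I + -(1 - C0 * Real.exp (-R1)) * I' := by ring
  have f5 : 2 * (Fintype.card J : ℝ) * C0 * Real.exp (-R1 / 2) * M * (Real.sqrt I + Real.sqrt I')
      = 2 * Fintype.card J * C0 * Real.exp (-R1 / 2) * M * Real.sqrt I
      + 2 * Fintype.card J * C0 * Real.exp (-R1 / 2) * M * Real.sqrt I' := by ring
  rw [f4, f5]
  rw [f3] at c1
  linarith

theorem ND_of (hIE : IE_stmt) (hKY : KY_stmt) : ND_stmt := by
  intro J K _ _ _ _ S Φ
  obtain ⟨he, -⟩ := hIE J K S Φ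
  obtain ⟨C0, hC0, hky⟩ := hKY J K S Φ
  set cJ : ℝ := 2 * (Fintype.card J : ℝ) with hcJ
  have hcJ0 : 0 ≤ cJ := by positivity
  -- existence of large parameters
  have hlim : Tendsto (fun R : ℝ => Real.exp (-R)) atTop (𝓝 0) :=
    Real.tendsto_exp_neg_atTop_nhds_zero
  have hR : ∃ R : ℝ, 0 < R ∧ C0 * Real.exp (-R) ≤ 1 / 4 ∧ cJ * C0 ^ 2 * Real.exp (-R) ≤ 1 / 4 := by
    have h1 : Tendsto (fun R : ℝ => C0 * Real.exp (-R)) atTop (𝓝 0) := by
      simpa using hlim.const_mul C0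
    have h2 : Tendsto (fun R : ℝ => cJ * C0 ^ 2 * Real.exp (-R)) atTop (𝓝 0) := by
      simpa using hlim.const_mul (cJ * C0 ^ 2)
    have h3 := h1.eventually (ge_mem_nhds (show (0 : ℝ) < 1 / 4 by norm_num))
    have h4 := h2.eventually (ge_mem_nhds (show (0 : ℝ) < 1 / 4 by norm_num))
    obtain ⟨R, hR1, hR2, hR3⟩ := (h3.and (h4.and (eventually_gt_atTop 0))).exists
    exact ⟨R, hR3, hR1, hR2⟩
  obtain ⟨R, hR0, hRa, hRb⟩ := hR
  obtain ⟨R'0, c, hc, hdn⟩ := Φ.dneg R
  set M0 : ℝ := ∑ k, (2 * ‖S.e k‖ + Φ.C) with hM0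
  have hM0k : ∀ k, 2 * ‖S.e k‖ + Φ.C ≤ M0 := by
    intro k
    exact Finset.single_le_sum (f := fun k => 2 * ‖S.e k‖ + Φ.C)
      (fun i _ => by have := norm_nonneg (S.e i); have := Φ.C_pos; positivity) (Finset.mem_univ k)
  have hM00 : 0 ≤ M0 := Finset.sum_nonneg
    (fun i _ => by have := norm_nonneg (S.e i); have := Φ.C_pos; positivity)
  set D : ℝ := cJ * C0 * M0 with hD
  have hD0 : 0 ≤ D := by positivity
  have hR' : ∃ R' : ℝ, R ≤ R' ∧ R'0 ≤ R' ∧ 2 * D ^ 2 * Real.exp (-R') ≤ c / 2 := by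
    have h1 : Tendsto (fun R : ℝ => 2 * D ^ 2 * Real.exp (-R)) atTop (𝓝 0) := by
      simpa using hlim.const_mul (2 * D ^ 2)
    have h3 := h1.eventually (ge_mem_nhds (show (0 : ℝ) < c / 2 by positivity))
    obtain ⟨R', h4, h5, h6⟩ :=
      (h3.and ((eventually_ge_atTop R).and (eventually_ge_atTop R'0))).exists
    exact ⟨R', h5, h6, h4⟩
  obtain ⟨R', hRR', hR'0, hR'1⟩ := hR'
  refine ⟨R, R', hR0, hRR', ?_⟩
  have hexpmono : Real.exp (-R') ≤ Real.exp (-R) := Real.exp_le_exp.mpr (by linarith)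
  intro T hT w hw
  rcases hT with hT | ⟨m, hm1, hm2⟩
  · -- all parameters large
    set vp : K → ℝ := fun k => if 0 ≤ T k then w k else 0 with hvp
    set vm : K → ℝ := fun k => if 0 ≤ T k then 0 else w k with hvm
    have hsum : w = vp + vm + 0 := by
      funext k
      simp only [hvp, hvm, Pi.add_apply, Pi.zero_apply]
      split_ifs <;> simp
    have hp : ∀ k, vp k ≠ 0 → R ≤ T k := by
      intro k hk
      simp only [hvp] at hk
      by_cases h : 0 ≤ T k
      · have := hT k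
        rwa [abs_of_nonneg h] at this
      · rw [if_neg h] at hk
        exact absurd rfl hk
    have hm : ∀ k, vm k ≠ 0 → R ≤ -T k := by
      intro k hk
      simp only [hvm] at hk
      by_cases h : 0 ≤ T k
      · rw [if_pos h] at hk
        exact absurd rfl hk
      · have := hT k
        rwa [abs_of_neg (not_le.mp h)] at this
    have hz : S.Xv (0 : K → ℝ) (Φ.Z T) = 0 := by unfold Sys.Xv; simp
    have hz' : S.ev (0 : K → ℝ) = 0 := by unfold Sys.ev; simp
    obtain ⟨a, b, ha, hb, ha', hb', hmain⟩ := ND_core S Φ he C0 hC0 hky R hR0.le T vp vm 0 hp hm 0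
      (by rw [hz, hz']; simp)
    rw [← hsum] at hmain
    rw [hz, om_zero_left] at hmain
    have hab : 0 < a ∨ 0 < b := by
      by_contra hno
      push Not at hno
      have h1 : vp = 0 := by
        by_contra h
        exact absurd (ha' h) (not_lt.mpr hno.1)
      have h2 : vm = 0 := by
        by_contra h
        exact absurd (hb' h) (not_lt.mpr hno.2)
      apply hw
      rw [hsum, h1, h2]
      simp
    have h1 : 2 * (Fintype.card J : ℝ) * C0 ^ 2 * Real.exp (-R) * (a * b) ≤ 1 / 4 * (a * b) := by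
      apply mul_le_mul_of_nonneg_right _ (by positivity)
      rw [← hcJ]
      exact hRb
    have h2 : -(1 - C0 * Real.exp (-R)) * (a ^ 2 + b ^ 2) ≤ -(3 / 4) * (a ^ 2 + b ^ 2) := by
      apply mul_le_mul_of_nonneg_right _ (by positivity)
      linarith
    have h3 : 0 < a ^ 2 + b ^ 2 := by
      rcases hab with h | h
      · have := pow_pos h 2; have := sq_nonneg b; linarith
      · have := pow_pos h 2; have := sq_nonneg a; linarith
    have h4 := sq_nonneg (a - b)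
    nlinarith
  · -- one parameter may be small
    have hkm : ∀ k, k ≠ m → R' ≤ |T k| := hm2
    have hR'pos : 0 < R' := lt_of_lt_of_le hR0 hRR'
    set vp : K → ℝ := fun k => if k = m then 0 else if 0 ≤ T k then w k else 0 with hvp
    set vm : K → ℝ := fun k => if k = m then 0 else if 0 ≤ T k then 0 else w k with hvm
    set v0 : K → ℝ := w m • Pi.single m 1 with hv0
    have hsum : w = vp + vm + v0 := by
      funext k
      simp only [hvp, hvm, hv0, Pi.add_apply, Pi.smul_apply, smul_eq_mul, Pi.single_apply]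
      split_ifs with h1 h2
      · rw [h1]; ring
      · ring
      · ring
    have hp : ∀ k, vp k ≠ 0 → R' ≤ T k := by
      intro k hk
      simp only [hvp] at hk
      by_cases hkm' : k = m
      · rw [if_pos hkm'] at hk
        exact absurd rfl hk
      · rw [if_neg hkm'] at hk
        by_cases h : 0 ≤ T k
        · have := hkm k hkm'
          rwa [abs_of_nonneg h] at this
        · rw [if_neg h] at hk
          exact absurd rfl hk
    have hm : ∀ k, vm k ≠ 0 → R' ≤ -T k := by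
      intro k hk
      simp only [hvm] at hk
      by_cases hkm' : k = m
      · rw [if_pos hkm'] at hk
        exact absurd rfl hk
      · rw [if_neg hkm'] at hk
        by_cases h : 0 ≤ T k
        · rw [if_pos h] at hk
          exact absurd rfl hk
        · have := hkm k hkm'
          rwa [abs_of_neg (not_le.mp h)] at this
    have hXv0 : S.Xv v0 (Φ.Z T) = w m • S.X m (Φ.Z T) := by
      rw [← IS_Xv_single S (Φ.Z T) m]
      unfold Sys.Xv
      rw [Finset.smul_sum]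
      refine Finset.sum_congr rfl fun k _ => ?_
      simp only [hv0, Pi.smul_apply, smul_eq_mul, smul_smul]
    have hev0 : S.ev v0 = w m • S.e m := by
      unfold Sys.ev
      rw [Finset.sum_eq_single m]
      · simp [hv0]
      · intro k _ hk
        simp [hv0, Pi.single_eq_of_ne hk]
      · intro h
        exact absurd (Finset.mem_univ m) h
    have hXm : ‖S.X m (Φ.Z T)‖ ≤ ‖S.e m‖ + Φ.C := by
      rcases le_total 0 (T m) with h | h
      · have h1 := Φ.ep T m
        have h2 : Real.exp (-(T m)) ≤ 1 := Real.exp_le_one_iff.mpr (by linarith)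
        have h3 : Φ.C * Real.exp (-(T m)) ≤ Φ.C := by
          have := mul_le_mul_of_nonneg_left h2 Φ.C_pos.le
          linarith
        calc ‖S.X m (Φ.Z T)‖ = ‖S.e m + (S.X m (Φ.Z T) - S.e m)‖ := by congr 1; abel
          _ ≤ ‖S.e m‖ + ‖S.X m (Φ.Z T) - S.e m‖ := norm_add_le _ _
          _ ≤ ‖S.e m‖ + Φ.C := by linarith
      · have h1 := Φ.em T m
        have h2 : Real.exp (T m) ≤ 1 := Real.exp_le_one_iff.mpr h
        have h3 : Φ.C * Real.exp (T m) ≤ Φ.C := by
          have := mul_le_mul_of_nonneg_left h2 Φ.C_pos.le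
          linarith
        calc ‖S.X m (Φ.Z T)‖ = ‖-S.e m + (S.X m (Φ.Z T) + S.e m)‖ := by congr 1; abel
          _ ≤ ‖-S.e m‖ + ‖S.X m (Φ.Z T) + S.e m‖ := norm_add_le _ _
          _ ≤ ‖S.e m‖ + Φ.C := by rw [norm_neg]; linarith
    have hMb : ‖S.Xv v0 (Φ.Z T)‖ + ‖S.ev v0‖ ≤ |w m| * M0 := by
      rw [hXv0, hev0, norm_smul, norm_smul, Real.norm_eq_abs]
      have h1 := hM0k m
      have h2 := abs_nonneg (w m)
      calc |w m| * ‖S.X m (Φ.Z T)‖ + |w m| * ‖S.e m‖
          = |w m| * (‖S.X m (Φ.Z T)‖ + ‖S.e m‖) := by ring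
        _ ≤ |w m| * M0 := by
          apply mul_le_mul_of_nonneg_left _ h2
          linarith
    obtain ⟨a, b, ha, hb, ha', hb', hmain⟩ := ND_core S Φ he C0 hC0 hky R' hR'pos.le T vp vm v0
      hp hm (|w m| * M0) hMb
    rw [← hsum] at hmain
    have h0 : om (S.Xv v0 (Φ.Z T)) (S.ev v0) ≤ -c * (w m) ^ 2 := by
      rw [hXv0, hev0, om_smul_left, om_smul_right]
      have h1 := hdn T m hm1 (fun k hk => hR'0.trans (hkm k hk))
      have h2 := mul_le_mul_of_nonneg_right h1 (sq_nonneg (w m))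
      calc w m * (w m * om (S.X m (Φ.Z T)) (S.e m)) = om (S.X m (Φ.Z T)) (S.e m) * (w m) ^ 2 := by
            ring
        _ ≤ -c * (w m) ^ 2 := h2
    have hpos : 0 < a ∨ 0 < b ∨ 0 < (w m) ^ 2 := by
      by_contra hno
      push Not at hno
      obtain ⟨n1, n2, n3⟩ := hno
      have h1 : vp = 0 := by
        by_contra h
        exact absurd (ha' h) (not_lt.mpr n1)
      have h2 : vm = 0 := by
        by_contra h
        exact absurd (hb' h) (not_lt.mpr n2)
      have h3 : w m = 0 := by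
        have := le_antisymm n3 (sq_nonneg (w m))
        exact pow_eq_zero_iff (two_ne_zero) |>.mp this
      apply hw
      rw [hsum, h1, h2, hv0, h3]
      simp
    have h1 : 2 * (Fintype.card J : ℝ) * C0 ^ 2 * Real.exp (-R') * (a * b)
        ≤ 1 / 4 * (a * b) := by
      apply mul_le_mul_of_nonneg_right _ (by positivity)
      rw [← hcJ]
      exact (mul_le_mul_of_nonneg_left hexpmono (by positivity)).trans hRb
    have h2 : -(1 - C0 * Real.exp (-R')) * (a ^ 2 + b ^ 2) ≤ -(3 / 4) * (a ^ 2 + b ^ 2) := by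
      apply mul_le_mul_of_nonneg_right _ (by positivity)
      have := mul_le_mul_of_nonneg_left hexpmono hC0
      linarith
    -- the mixed term
    have h3 : 2 * (Fintype.card J : ℝ) * C0 * Real.exp (-R' / 2) * (|w m| * M0) * (a + b)
        ≤ 1 / 4 * (a ^ 2 + b ^ 2) + c / 2 * (w m) ^ 2 := by
      have e1 : 2 * (Fintype.card J : ℝ) * C0 * Real.exp (-R' / 2) * (|w m| * M0) * (a + b)
          = (D * Real.exp (-R' / 2) * |w m|) * a + (D * Real.exp (-R' / 2) * |w m|) * b := by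
        rw [hD, hcJ]; ring
      rw [e1]
      have d1 : Real.exp (-R') = Real.exp (-R' / 2) ^ 2 := by
        rw [← Real.exp_nat_mul]
        congr 1
        push_cast
        ring
      set x : ℝ := D * Real.exp (-R' / 2) * |w m| with hx
      have hxx : 2 * x ^ 2 ≤ c / 2 * (w m) ^ 2 := by
        have : 2 * x ^ 2 = (2 * D ^ 2 * Real.exp (-R')) * (w m) ^ 2 := by
          rw [hx, d1]
          have : |w m| ^ 2 = (w m) ^ 2 := sq_abs _
          calc 2 * (D * Real.exp (-R' / 2) * |w m|) ^ 2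
              = 2 * D ^ 2 * Real.exp (-R' / 2) ^ 2 * |w m| ^ 2 := by ring
            _ = _ := by rw [this]
        rw [this]
        exact mul_le_mul_of_nonneg_right hR'1 (sq_nonneg _)
      nlinarith [sq_nonneg (x - a / 2), sq_nonneg (x - b / 2)]
    have h4 := sq_nonneg (a - b)
    have h5 := sq_nonneg (w m)
    have h6 := sq_nonneg a
    have h7 := sq_nonneg b
    have h8 : 0 < a ^ 2 + b ^ 2 + c / 2 * (w m) ^ 2 := by
      rcases hpos with h | h | h
      · have := pow_pos h 2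
        positivity
      · have := pow_pos h 2
        positivity
      · have := mul_pos (half_pos hc) h
        linarith
    nlinarith

end Pool.Agent.helper73.AD
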