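import Pool.Agent.helper73.AD.Basic

/-! Module NS of project ad (MP_a29257_gt): nowhere singular. -/

namespace Pool.Agent.helper73.AD

open scoped BigOperators Topology
open Filter

theorem NS_of (hND : ND_stmt) (hOP : OP_stmt) (hCL : CL_stmt) : NS_stmt := by
  intro J K _ _ _ _ S Φ T w hTw
  by_contra hw
  obtain ⟨R, R', hR, hRR', hnd⟩ := hND J K S Φ
  have hR' : 0 < R' := lt_of_lt_of_le hR hRR'
  have hclopen : IsClopen (Bad Φ) := ⟨hCL J K S Φ, hOP J K S Φ⟩
  -- a line which does not meet the singular set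
  set T0 : K → ℝ := fun k => 3 * R' * ((Fintype.equivFin K k : ℕ) : ℝ) with hT0
  have hnot : T0 ∉ Bad Φ := by
    rintro ⟨s, w', hw', h⟩
    have hcase : (∀ k, R ≤ |(T0 + s • (fun _ : K => (1 : ℝ))) k|) ∨
        (∃ m, |(T0 + s • (fun _ : K => (1 : ℝ))) m| ≤ R ∧
          ∀ k, k ≠ m → R' ≤ |(T0 + s • (fun _ : K => (1 : ℝ))) k|) := by
      by_cases hall : ∀ k, R ≤ |(T0 + s • (fun _ : K => (1 : ℝ))) k|
      · exact Or.inl hall
      · right
        push Not at hall
        obtain ⟨m, hm⟩ := hall
        refine ⟨m, hm.le, ?_⟩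
        intro k hk
        have e1 : ∀ k, (T0 + s • (fun _ : K => (1 : ℝ))) k
            = 3 * R' * ((Fintype.equivFin K k : ℕ) : ℝ) + s := by
          intro k
          simp [hT0]
        rw [e1] at hm ⊢
        have hne : (Fintype.equivFin K k : ℕ) ≠ (Fintype.equivFin K m : ℕ) := by
          intro h
          exact hk ((Fintype.equivFin K).injective (Fin.ext h))
        have hdist : 1 ≤ |((Fintype.equivFin K k : ℕ) : ℝ) - ((Fintype.equivFin K m : ℕ) : ℝ)| := by
          rcases lt_or_gt_of_ne hne with h | h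
          · have h1 : ((Fintype.equivFin K k : ℕ) : ℝ) + 1 ≤ ((Fintype.equivFin K m : ℕ) : ℝ) := by
              exact_mod_cast h
            rw [abs_of_nonpos (by linarith)]
            linarith
          · have h1 : ((Fintype.equivFin K m : ℕ) : ℝ) + 1 ≤ ((Fintype.equivFin K k : ℕ) : ℝ) := by
              exact_mod_cast h
            rw [abs_of_nonneg (by linarith)]
            linarith
        have h2 : 3 * R' ≤ |(3 * R' * ((Fintype.equivFin K k : ℕ) : ℝ) + s)
            - (3 * R' * ((Fintype.equivFin K m : ℕ) : ℝ) + s)| := by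
          have : (3 * R' * ((Fintype.equivFin K k : ℕ) : ℝ) + s)
            - (3 * R' * ((Fintype.equivFin K m : ℕ) : ℝ) + s)
            = 3 * R' * (((Fintype.equivFin K k : ℕ) : ℝ) - ((Fintype.equivFin K m : ℕ) : ℝ)) := by
            ring
          rw [this, abs_mul, abs_of_pos (by linarith : (0 : ℝ) < 3 * R')]
          calc 3 * R' = 3 * R' * 1 := (mul_one _).symm
            _ ≤ _ := mul_le_mul_of_nonneg_left hdist (by linarith)
        have h3 := abs_sub (3 * R' * ((Fintype.equivFin K k : ℕ) : ℝ) + s)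
            (3 * R' * ((Fintype.equivFin K m : ℕ) : ℝ) + s)
        linarith
    have h1 := hnd _ hcase w' hw'
    rw [om_ev_right] at h1
    have h2 : ∑ k, w' k * om (S.Xv w' (Φ.Z (T0 + s • (fun _ : K => (1 : ℝ))))) (S.e k) = 0 :=
      Finset.sum_eq_zero fun k _ => by rw [h k, mul_zero]
    linarith
  have hempty : Bad Φ = ∅ := by
    rcases isClopen_iff.mp hclopen with h | h
    · exact h
    · exact absurd (h ▸ Set.mem_univ T0) hnot
  have hmem : T ∈ Bad Φ := by
    refine ⟨0, w, hw, ?_⟩
    intro k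
    rw [zero_smul, add_zero]
    exact hTw k
  rw [hempty] at hmem
  exact hmem

end Pool.Agent.helper73.AD
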